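import Pool.Agent.H207.TF.Stm

/-!
# Puiseux's theorem for monic polynomials with holomorphic coefficients (task MPUI of project TF)

The proof is Newton's argument: shift, rescale, split off a root by the analytic Hensel lemma, induct.
-/

set_option autoImplicit false

open Metric Set Filter Topology Polynomial

namespace Pool.Agent.H227.TF207

/-- the germ at `0` is a monic polynomial of degree `m` with analytic coefficients -/
private def Mon (m : ℕ) (w : ℂ → ℂ[X]) : Prop :=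
  (∀ᶠ s in 𝓝 (0 : ℂ), (w s).Monic ∧ (w s).natDegree = m) ∧
    ∀ i : ℕ, AnalyticAt ℂ (fun t => (w t).coeff i) 0

/-- the germ has a Puiseux factorization -/
private def Fac (w : ℂ → ℂ[X]) : Prop :=
  ∃ K : ℕ, 1 ≤ K ∧ ∃ L : List (ℂ → ℂ), (∀ f ∈ L, AnalyticAt ℂ f 0) ∧
    ∀ᶠ a in 𝓝 (0 : ℂ), w (a ^ K) = (L.map fun f => X - C (f a)).prod

private theorem tpow {K : ℕ} (hK : 1 ≤ K) : Tendsto (fun a : ℂ => a ^ K) (𝓝 0) (𝓝 0) := by
  have h : Tendsto (fun a : ℂ => a ^ K) (𝓝 0) (𝓝 ((0 : ℂ) ^ K)) := (continuous_pow K).tendsto 0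
  have h2 : (0 : ℂ) ^ K = 0 := zero_pow (by omega)
  rw [h2] at h
  exact h

private theorem anpow {K : ℕ} (hK : 1 ≤ K) {f : ℂ → ℂ} (hf : AnalyticAt ℂ f 0) :
    AnalyticAt ℂ (fun a => f (a ^ K)) 0 := by
  have h1 : AnalyticAt ℂ (fun a : ℂ => a ^ K) 0 := analyticAt_id.pow K
  have h2 : (fun a : ℂ => a ^ K) 0 = 0 := zero_pow (by omega)
  exact AnalyticAt.comp_of_eq hf h1 h2

private theorem fac_mul {w G H : ℂ → ℂ[X]} (hG : Fac G) (hH : Fac H)
    (h : ∀ᶠ s in 𝓝 (0 : ℂ), w s = G s * H s) : Fac w := by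
  obtain ⟨K₁, hK₁, L₁, hL₁, h₁⟩ := hG
  obtain ⟨K₂, hK₂, L₂, hL₂, h₂⟩ := hH
  have hK : 1 ≤ K₁ * K₂ := Nat.mul_pos hK₁ hK₂
  refine ⟨K₁ * K₂, hK, L₁.map (fun f a => f (a ^ K₂)) ++ L₂.map (fun f a => f (a ^ K₁)), ?_, ?_⟩
  · intro f hf
    rcases List.mem_append.1 hf with hf | hf
    · obtain ⟨g, hg, rfl⟩ := List.mem_map.1 hf
      exact anpow hK₂ (hL₁ g hg)
    · obtain ⟨g, hg, rfl⟩ := List.mem_map.1 hf
      exact anpow hK₁ (hL₂ g hg)
  · filter_upwards [(tpow hK).eventually h, (tpow hK₂).eventually h₁, (tpow hK₁).eventually h₂]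
      with a ha h1 h2
    rw [ha, List.map_append, List.prod_append, List.map_map, List.map_map]
    have e1 : a ^ (K₁ * K₂) = (a ^ K₂) ^ K₁ := by rw [← pow_mul, mul_comm]
    have e2 : a ^ (K₁ * K₂) = (a ^ K₁) ^ K₂ := by rw [← pow_mul]
    have e3 : G (a ^ (K₁ * K₂)) = (L₁.map fun f => X - C (f (a ^ K₂))).prod := by
      rw [e1]
      exact h1
    have e4 : H (a ^ (K₁ * K₂)) = (L₂.map fun f => X - C (f (a ^ K₁))).prod := by
      rw [e2]
      exact h2
    rw [e3, e4]
    rfl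

private theorem scale_prod (L : List (ℂ → ℂ)) (a r : ℂ) :
    ((L.map fun f : ℂ → ℂ => (X - C (f a) : ℂ[X])).prod).scaleRoots r =
      (L.map fun f : ℂ → ℂ => (X - C (f a * r) : ℂ[X])).prod := by
  induction L with
  | nil =>
    simp only [List.map_nil, List.prod_nil]
    exact one_scaleRoots r
  | cons f L ih =>
    simp only [List.map_cons, List.prod_cons]
    rw [mul_scaleRoots_of_noZeroDivisors, ih]
    congr 1
    rw [X_sub_C_scaleRoots, mul_comm]

private theorem fac_scale {w W : ℂ → ℂ[X]} {q e : ℕ} (hq : 1 ≤ q) (hW : Fac W)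
    (h : ∀ᶠ a in 𝓝 (0 : ℂ), w (a ^ q) = (W a).scaleRoots (a ^ e)) : Fac w := by
  obtain ⟨K, hK, L, hL, h1⟩ := hW
  have hKq : 1 ≤ K * q := Nat.mul_pos hK hq
  refine ⟨K * q, hKq, L.map (fun f b => f b * (b ^ K) ^ e), ?_, ?_⟩
  · intro f hf
    obtain ⟨g, hg, rfl⟩ := List.mem_map.1 hf
    have h2 : AnalyticAt ℂ (fun b : ℂ => (b ^ K) ^ e) 0 := (analyticAt_id.pow K).pow e
    exact (hL g hg).mul h2
  · filter_upwards [(tpow hK).eventually h, h1] with b h2 h3
    rw [List.map_map, pow_mul, h2, h3, scale_prod]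
    rfl

private theorem shift_prod (L : List (ℂ → ℂ)) (a r : ℂ) :
    ((L.map fun f : ℂ → ℂ => (X - C (f a) : ℂ[X])).prod).comp (X + C r) =
      (L.map fun f : ℂ → ℂ => (X - C (f a - r) : ℂ[X])).prod := by
  induction L with
  | nil => simp only [List.map_nil, List.prod_nil, one_comp]
  | cons f L ih =>
    simp only [List.map_cons, List.prod_cons]
    rw [mul_comp, ih]
    congr 1
    rw [sub_comp, X_comp, C_comp, C_sub]
    ring

private theorem fac_shift {w W : ℂ → ℂ[X]} {b : ℂ → ℂ} (hb : AnalyticAt ℂ b 0) (hW : Fac W)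
    (h : ∀ᶠ s in 𝓝 (0 : ℂ), w s = (W s).comp (X + C (b s))) : Fac w := by
  obtain ⟨K, hK, L, hL, h1⟩ := hW
  refine ⟨K, hK, L.map (fun f a => f a - b (a ^ K)), ?_, ?_⟩
  · intro f hf
    obtain ⟨g, hg, rfl⟩ := List.mem_map.1 hf
    exact (hL g hg).sub (anpow hK hb)
  · filter_upwards [(tpow hK).eventually h, h1] with a h2 h3
    rw [List.map_map, h2, h3, shift_prod]
    rfl

private theorem comp_coeff (p : ℂ[X]) (m : ℕ) (hp : p.natDegree = m) (b : ℂ) (i : ℕ) :
    (p.comp (X - C b)).coeff i =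
      ∑ j ∈ Finset.range (m + 1), p.coeff j * ((-b) ^ (j - i) * (j.choose i : ℂ)) := by
  have h1 : (X - C b : ℂ[X]) = X + C (-b) := by rw [C_neg, sub_eq_add_neg]
  rw [h1]
  have h2 : p.comp (X + C (-b)) =
      ∑ j ∈ Finset.range (p.natDegree + 1), C (p.coeff j) * (X + C (-b)) ^ j :=
    eval₂_eq_sum_range _ _
  rw [h2, finsetSum_coeff, hp]
  refine Finset.sum_congr rfl fun j _ => ?_
  rw [coeff_C_mul, coeff_X_add_C_pow]

/-- the shift: the coefficient of `X ^ (m - 1)` can be assumed to vanish -/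
private theorem shift_red {m : ℕ} (hm : 1 ≤ m)
    (H : ∀ w, Mon m w → (∀ᶠ s in 𝓝 (0 : ℂ), (w s).coeff (m - 1) = 0) → Fac w) (w : ℂ → ℂ[X])
    (hw : Mon m w) : Fac w := by
  obtain ⟨h1, h2⟩ := hw
  obtain ⟨b, hb⟩ : ∃ b : ℂ → ℂ, b = fun s => (w s).coeff (m - 1) / (m : ℂ) := ⟨_, rfl⟩
  have hb' : ∀ s, b s = (w s).coeff (m - 1) / (m : ℂ) := fun s => by rw [hb]
  have hban : AnalyticAt ℂ b 0 := by
    rw [hb]
    exact (h2 (m - 1)).div_const
  have hm0 : (m : ℂ) ≠ 0 := by
    have : m ≠ 0 := by omega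
    exact_mod_cast this
  refine fac_shift (W := fun s => (w s).comp (X - C (b s))) hban (H _ ⟨?_, fun i => ?_⟩ ?_) ?_
  · filter_upwards [h1] with s hs
    refine ⟨hs.1.comp_X_sub_C _, ?_⟩
    rw [natDegree_comp, natDegree_X_sub_C, mul_one]
    exact hs.2
  · have h3 : AnalyticAt ℂ (fun s => ∑ j ∈ Finset.range (m + 1),
        (w s).coeff j * ((-b s) ^ (j - i) * (j.choose i : ℂ))) 0 := by
      refine Finset.analyticAt_fun_sum _ fun j _ => ?_
      exact (h2 j).mul ((hban.neg.pow _).mul analyticAt_const)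
    refine h3.congr ?_
    filter_upwards [h1] with s hs
    exact (comp_coeff (w s) m hs.2 (b s) i).symm
  · filter_upwards [h1] with s hs
    rw [comp_coeff (w s) m hs.2]
    obtain ⟨k, rfl⟩ : ∃ k, m = k + 1 := ⟨m - 1, by omega⟩
    rw [Finset.sum_range_succ, Finset.sum_range_succ, Finset.sum_eq_zero, Nat.add_sub_cancel]
    · have h4 : (w s).coeff (k + 1) = 1 := by
        have := hs.1.coeff_natDegree
        rwa [hs.2] at this
      have h5 : k + 1 - k = 1 := by omega
      rw [h4, h5, Nat.sub_self, Nat.choose_self, Nat.choose_succ_self_right, hb',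
        Nat.add_sub_cancel]
      push_cast at hm0 ⊢
      field_simp
      ring
    · intro j hj
      have hj := Finset.mem_range.1 hj
      rw [Nat.choose_eq_zero_of_lt (by omega : j < k + 1 - 1)]
      push_cast
      ring
  · refine Eventually.of_forall fun s => ?_
    rw [comp_assoc, sub_comp, X_comp, C_comp, add_sub_cancel_right, comp_X]

/-- local form of the Hensel lemma -/
private theorem hens (h : Pool.Agent.H207.TF.S_HENS) {m : ℕ} {w : ℂ → ℂ[X]} (hw : Mon m w)
    {g k : ℂ[X]} (hg : g.Monic) (hk : k.Monic) (hc : IsCoprime g k) (h0 : w 0 = g * k) :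
    ∃ G H : ℂ → ℂ[X], Mon g.natDegree G ∧ Mon k.natDegree H ∧
      ∀ᶠ s in 𝓝 (0 : ℂ), w s = G s * H s := by
  obtain ⟨h1, h2⟩ := hw
  have h3 : ∀ᶠ s in 𝓝 (0 : ℂ), ∀ i ∈ Finset.range (m + 1),
      AnalyticAt ℂ (fun t => (w t).coeff i) s := by
    rw [Finset.eventually_all]
    exact fun i _ => (h2 i).eventually_analyticAt
  obtain ⟨ρ, hρ, h4⟩ := Metric.eventually_nhds_iff.1 (h1.and h3)
  have h5 : ∀ s : ℂ, ‖s‖ < ρ → (w s).Monic ∧ (w s).natDegree = m := fun s hs =>
    (h4 (by rwa [dist_zero_right])).1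
  have h6 : ∀ (i : ℕ) (s : ℂ), ‖s‖ < ρ → DifferentiableAt ℂ (fun t => (w t).coeff i) s := by
    intro i s hs
    by_cases hi : i < m + 1
    · exact ((h4 (by rwa [dist_zero_right])).2 i (Finset.mem_range.2 hi)).differentiableAt
    · have h7 : (fun t => (w t).coeff i) =ᶠ[𝓝 s] fun _ => (0 : ℂ) := by
        filter_upwards [(Metric.isOpen_ball : IsOpen (ball (0 : ℂ) ρ)).mem_nhds
          (mem_ball_zero_iff.2 hs)] with t ht
        refine coeff_eq_zero_of_natDegree_lt ?_
        rw [(h5 t (mem_ball_zero_iff.1 ht)).2]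
        omega
      exact h7.differentiableAt_iff.2 (differentiableAt_const _)
  obtain ⟨G, H, ε, hε, -, h8⟩ := h w ρ m hρ h5 h6 g k hg hk hc h0
  have hnb : ∀ᶠ s in 𝓝 (0 : ℂ), ‖s‖ < ε := by
    filter_upwards [ball_mem_nhds (0 : ℂ) hε] with s hs
    exact mem_ball_zero_iff.1 hs
  have han : ∀ f : ℂ → ℂ, (∀ s : ℂ, ‖s‖ < ε → DifferentiableAt ℂ f s) → AnalyticAt ℂ f 0 := by
    intro f hf
    have h9 : DifferentiableOn ℂ f (ball 0 ε) := fun s hs =>
      (hf s (mem_ball_zero_iff.1 hs)).differentiableWithinAt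
    exact h9.analyticAt (ball_mem_nhds _ hε)
  refine ⟨G, H, ⟨?_, fun i => han _ fun s hs => ?_⟩, ⟨?_, fun i => han _ fun s hs => ?_⟩, ?_⟩
  · filter_upwards [hnb] with s hs
    exact ⟨(h8 s hs).1, (h8 s hs).2.1⟩
  · exact ((h8 s hs).2.2.2.2.2 i).1
  · filter_upwards [hnb] with s hs
    exact ⟨(h8 s hs).2.2.1, (h8 s hs).2.2.2.1⟩
  · exact ((h8 s hs).2.2.2.2.2 i).2
  · filter_upwards [hnb] with s hs
    exact (h8 s hs).2.2.2.2.1

/-- the case in which `w 0` has two different roots -/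
private theorem split_case (h : Pool.Agent.H207.TF.S_HENS) {m : ℕ} (hm : 1 ≤ m)
    (IH : ∀ k < m, ∀ w, Mon k w → Fac w) {w : ℂ → ℂ[X]} (hw : Mon m w)
    (h0 : ∀ y : ℂ, w 0 ≠ (X - C y) ^ m) : Fac w := by
  obtain ⟨hmon, hdeg⟩ := hw.1.self_of_nhds
  obtain ⟨y, hy⟩ : ∃ y, (w 0).IsRoot y := by
    refine IsAlgClosed.exists_root _ ?_
    rw [degree_eq_natDegree hmon.ne_zero, hdeg]
    have : m ≠ 0 := by omega
    exact_mod_cast this
  obtain ⟨g, hg1, hg2⟩ := (w 0).exists_eq_pow_rootMultiplicity_mul_and_not_dvd hmon.ne_zero y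
  obtain ⟨k, hk⟩ : ∃ k, k = (w 0).rootMultiplicity y := ⟨_, rfl⟩
  rw [← hk] at hg1
  have hk1 : 1 ≤ k := by
    rw [hk]
    exact (rootMultiplicity_pos hmon.ne_zero).2 hy
  have hXm : ((X - C y) ^ k : ℂ[X]).Monic := (monic_X_sub_C y).pow k
  have hgm : g.Monic := by
    have := hmon
    rw [hg1] at this
    exact hXm.of_mul_monic_left this
  have hXd : ((X - C y) ^ k : ℂ[X]).natDegree = k := by
    rw [(monic_X_sub_C y).natDegree_pow, natDegree_X_sub_C, mul_one]
  have hsum : k + g.natDegree = m := by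
    rw [← hdeg, hg1, hXm.natDegree_mul hgm, hXd]
  have hg0 : g.natDegree ≠ 0 := by
    intro hcon
    have h1 : g = 1 := hgm.natDegree_eq_zero.1 hcon
    rw [hcon, add_zero] at hsum
    rw [h1, mul_one, hsum] at hg1
    exact h0 y hg1
  have hcop : IsCoprime ((X - C y) ^ k) g := by
    refine IsCoprime.pow_left ?_
    exact (irreducible_X_sub_C y).coprime_iff_not_dvd.2 hg2
  obtain ⟨G, H, hG, hH, hGH⟩ := hens h hw hXm hgm hcop hg1
  rw [hXd] at hG
  exact fac_mul (IH k (by omega) G hG) (IH _ (by omega) H hH) hGH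

/-- the Newton polygon step -/
private theorem newton (h : Pool.Agent.H207.TF.S_HENS) {m : ℕ} (hm : 1 ≤ m)
    (IH : ∀ k < m, ∀ w, Mon k w → Fac w) (w : ℂ → ℂ[X]) (hw : Mon m w)
    (h0 : ∀ᶠ s in 𝓝 (0 : ℂ), (w s).coeff (m - 1) = 0) : Fac w := by
  classical
  obtain ⟨h1, h2⟩ := hw
  -- orders
  have h3 : ∀ j : ℕ, ∃ (e : ℕ) (g : ℂ → ℂ), (¬ (∀ᶠ s in 𝓝 (0 : ℂ), (w s).coeff j = 0)) →
      AnalyticAt ℂ g 0 ∧ g 0 ≠ 0 ∧ ∀ᶠ s in 𝓝 (0 : ℂ), (w s).coeff j = s ^ e * g s := by
    intro j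
    by_cases hj : ∀ᶠ s in 𝓝 (0 : ℂ), (w s).coeff j = 0
    · exact ⟨0, fun _ => 0, fun hcon => absurd hj hcon⟩
    · obtain ⟨e, g, h4, h5, h6⟩ := (h2 j).exists_eventuallyEq_pow_smul_nonzero_iff.2 hj
      refine ⟨e, g, fun _ => ⟨h4, h5, ?_⟩⟩
      filter_upwards [h6] with s hs
      rw [hs, sub_zero, smul_eq_mul]
  choose e g hg using h3
  obtain ⟨S, hS⟩ : ∃ S : Finset ℕ, ∀ j, j ∈ S ↔ j < m ∧ ¬ (∀ᶠ s in 𝓝 (0 : ℂ), (w s).coeff j = 0) :=
    ⟨(Finset.range m).filter (fun j => ¬ (∀ᶠ s in 𝓝 (0 : ℂ), (w s).coeff j = 0)), fun j => by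
      rw [Finset.mem_filter, Finset.mem_range]⟩
  by_cases hSe : S.Nonempty
  swap
  · -- `w s = X ^ m`
    refine ⟨1, le_refl _, List.replicate m (fun _ => 0), ?_, ?_⟩
    · intro f hf
      rw [List.eq_of_mem_replicate hf]
      exact analyticAt_const
    · have h4 : ∀ᶠ s in 𝓝 (0 : ℂ), ∀ j ∈ Finset.range m, (w s).coeff j = 0 := by
        rw [Finset.eventually_all]
        intro j hj
        by_contra hcon
        exact hSe ⟨j, (hS j).2 ⟨Finset.mem_range.1 hj, hcon⟩⟩
      filter_upwards [h1, h4] with s hs hs2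
      rw [List.map_replicate, List.prod_replicate, pow_one, C_0, sub_zero]
      ext j
      rw [coeff_X_pow]
      split_ifs with hj
      · have := hs.1.coeff_natDegree
        rw [hs.2] at this
        rw [hj, this]
      · rcases lt_or_gt_of_ne hj with hj | hj
        · exact hs2 j (Finset.mem_range.2 hj)
        · exact coeff_eq_zero_of_natDegree_lt (by rw [hs.2]; exact hj)
  · -- the minimal slope
    obtain ⟨j₀, hj₀, hmin⟩ := S.exists_min_image (fun j => (e j : ℚ) / ((m - j : ℕ) : ℚ)) hSe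
    obtain ⟨hj₀m, hj₀0⟩ := (hS j₀).1 hj₀
    obtain ⟨q, hq⟩ : ∃ q, q = m - j₀ := ⟨_, rfl⟩
    have hq1 : 1 ≤ q := by omega
    obtain ⟨ee, hee⟩ : ∃ ee, ee = e j₀ := ⟨_, rfl⟩
    have hle : ∀ j ∈ S, ee * (m - j) ≤ q * e j := by
      intro j hj
      have h4 := hmin j hj
      have h5 : (0 : ℚ) < ((m - j : ℕ) : ℚ) := by
        have := ((hS j).1 hj).1
        have h6 : 0 < m - j := by omega
        exact_mod_cast h6
      have h6 : (0 : ℚ) < ((m - j₀ : ℕ) : ℚ) := by
        have h7 : 0 < m - j₀ := by omega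
        exact_mod_cast h7
      rw [div_le_div_iff₀ h6 h5, ← hee, ← hq] at h4
      have h7 : ee * (m - j) ≤ e j * q := by exact_mod_cast h4
      rw [mul_comm q]
      exact h7
    -- the rescaled polynomial
    obtain ⟨B, hB⟩ : ∃ B : ℕ → ℂ → ℂ, ∀ j a, B j a =
        if j ∈ S then a ^ (q * e j - ee * (m - j)) * g j (a ^ q) else 0 := ⟨_, fun _ _ => rfl⟩
    have hBan : ∀ j, AnalyticAt ℂ (B j) 0 := by
      intro j
      have h4 : B j = fun a => if j ∈ S then a ^ (q * e j - ee * (m - j)) * g j (a ^ q) else 0 :=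
        funext (hB j)
      rw [h4]
      by_cases hj : j ∈ S
      · simp only [if_pos hj]
        exact (analyticAt_id.pow _).mul (anpow hq1 (hg j ((hS j).1 hj).2).1)
      · simp only [if_neg hj]
        exact analyticAt_const
    have hBw : ∀ j < m, ∀ᶠ a in 𝓝 (0 : ℂ),
        (w (a ^ q)).coeff j = B j a * (a ^ ee) ^ (m - j) := by
      intro j hj
      by_cases hjS : j ∈ S
      · filter_upwards [(tpow hq1).eventually (hg j ((hS j).1 hjS).2).2.2] with a ha
        rw [ha, hB, if_pos hjS, ← pow_mul, ← pow_mul]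
        have h4 : q * e j = (q * e j - ee * (m - j)) + ee * (m - j) := by
          have := hle j hjS
          omega
        conv_lhs => rw [h4, pow_add]
        ring
      · have h4 : ∀ᶠ s in 𝓝 (0 : ℂ), (w s).coeff j = 0 := by
          by_contra hcon
          exact hjS ((hS j).2 ⟨hj, hcon⟩)
        filter_upwards [(tpow hq1).eventually h4] with a ha
        rw [ha, hB, if_neg hjS, zero_mul]
    obtain ⟨R, hR⟩ : ∃ R : ℂ → ℂ[X], ∀ a, R a = ∑ j ∈ Finset.range m, C (B j a) * X ^ j :=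
      ⟨_, fun _ => rfl⟩
    have hRd : ∀ a, (R a).degree < (m : ℕ) := by
      intro a
      rw [hR]
      refine (degree_sum_le _ _).trans_lt ?_
      rw [Finset.sup_lt_iff (by exact_mod_cast WithBot.bot_lt_coe m)]
      intro j hj
      refine (degree_C_mul_X_pow_le _ _).trans_lt ?_
      exact_mod_cast Finset.mem_range.1 hj
    have hRc : ∀ a j, j < m → (R a).coeff j = B j a := by
      intro a j hj
      rw [hR, finsetSum_coeff, Finset.sum_eq_single j]
      · rw [coeff_C_mul_X_pow, if_pos rfl]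
      · intro k _ hk
        rw [coeff_C_mul_X_pow, if_neg hk.symm]
      · intro hcon
        exact absurd (Finset.mem_range.2 hj) hcon
    obtain ⟨W, hW⟩ : ∃ W : ℂ → ℂ[X], ∀ a, W a = X ^ m + R a := ⟨_, fun _ => rfl⟩
    have hWm : ∀ a, (W a).Monic := fun a => by
      rw [hW]
      exact monic_X_pow_add (hRd a)
    have hWd : ∀ a, (W a).natDegree = m := fun a => by
      rw [hW]
      rw [natDegree_eq_of_degree_eq_some]
      rw [degree_add_eq_left_of_degree_lt, degree_X_pow]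
      rw [degree_X_pow]
      exact hRd a
    have hWc : ∀ a j, j < m → (W a).coeff j = B j a := by
      intro a j hj
      rw [hW, coeff_add, coeff_X_pow, if_neg (by omega), zero_add, hRc a j hj]
    have hWM : Mon m W := by
      refine ⟨Eventually.of_forall fun a => ⟨hWm a, hWd a⟩, fun i => ?_⟩
      rcases lt_trichotomy i m with hi | hi | hi
      · have h4 : (fun t => (W t).coeff i) = B i := funext fun t => hWc t i hi
        rw [h4]
        exact hBan i
      · have h4 : (fun t => (W t).coeff i) = fun _ => (1 : ℂ) := funext fun t => by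
          have := (hWm t).coeff_natDegree
          rw [hWd] at this
          rw [hi, this]
        rw [h4]
        exact analyticAt_const
      · have h4 : (fun t => (W t).coeff i) = fun _ => (0 : ℂ) := funext fun t => by
          exact coeff_eq_zero_of_natDegree_lt (by rw [hWd]; exact hi)
        rw [h4]
        exact analyticAt_const
    refine fac_scale (W := W) (e := ee) hq1 (split_case h hm IH hWM ?_) ?_
    · -- two different roots
      intro y hy
      have h4 : (W 0).coeff (m - 1) = 0 := by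
        rw [hWc 0 (m - 1) (by omega), hB, if_neg]
        intro hcon
        exact ((hS _).1 hcon).2 h0
      have h5 : (W 0).coeff j₀ ≠ 0 := by
        rw [hWc 0 j₀ hj₀m, hB, if_pos hj₀]
        have h6 : q * e j₀ - ee * (m - j₀) = 0 := by
          rw [← hee, ← hq, mul_comm, Nat.sub_self]
        rw [h6, pow_zero, one_mul, zero_pow (by omega)]
        exact (hg j₀ hj₀0).2.1
      have h6 : (X - C y : ℂ[X]) = X + C (-y) := by rw [C_neg, sub_eq_add_neg]
      rw [hy, h6, coeff_X_add_C_pow] at h4 h5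
      have h7 : m - (m - 1) = 1 := by omega
      have h8 : m.choose (m - 1) = m := by
        rw [Nat.choose_symm_of_eq_add (by omega : m = (m - 1) + 1), Nat.choose_one_right]
      rw [h7, h8, pow_one] at h4
      have hm0 : (m : ℂ) ≠ 0 := by
        have : m ≠ 0 := by omega
        exact_mod_cast this
      have h9 : -y = 0 := (mul_eq_zero.1 h4).resolve_right hm0
      rw [h9, zero_pow (by omega), zero_mul] at h5
      exact h5 rfl
    · have h4 : ∀ᶠ a in 𝓝 (0 : ℂ), ∀ j ∈ Finset.range m,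
          (w (a ^ q)).coeff j = B j a * (a ^ ee) ^ (m - j) := by
        rw [Finset.eventually_all]
        exact fun j hj => hBw j (Finset.mem_range.1 hj)
      filter_upwards [(tpow hq1).eventually h1, h4] with a ha ha2
      ext j
      rw [coeff_scaleRoots, hWd]
      rcases lt_trichotomy j m with hj | hj | hj
      · rw [ha2 j (Finset.mem_range.2 hj), hWc a j hj]
      · have h5 := (hWm a).coeff_natDegree
        have h6 := ha.1.coeff_natDegree
        rw [hWd] at h5
        rw [ha.2] at h6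
        rw [hj, h5, h6, Nat.sub_self, pow_zero, mul_one]
      · rw [coeff_eq_zero_of_natDegree_lt (by rw [ha.2]; exact hj),
          coeff_eq_zero_of_natDegree_lt (by rw [hWd]; exact hj), zero_mul]

private theorem fac_all (h : Pool.Agent.H207.TF.S_HENS) (m : ℕ) : ∀ w, Mon m w → Fac w := by
  induction m using Nat.strong_induction_on with
  | _ m IH =>
    rcases Nat.eq_zero_or_pos m with hm | hm
    · intro w hw
      refine ⟨1, le_refl _, [], by simp, ?_⟩
      filter_upwards [hw.1] with a ha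
      rw [hm] at ha
      rw [pow_one, ha.1.natDegree_eq_zero.1 ha.2]
      rfl
    · exact shift_red hm (newton h hm IH)

/-- **Puiseux's theorem for monic polynomials with holomorphic coefficients.** -/
theorem t_MPUI (h : Pool.Agent.H207.TF.S_HENS) : Pool.Agent.H207.TF.S_MPUI := by
  intro m w ρ hρ h1 h2
  have hnb : ∀ᶠ s in 𝓝 (0 : ℂ), ‖s‖ < ρ := by
    filter_upwards [ball_mem_nhds (0 : ℂ) hρ] with s hs
    exact mem_ball_zero_iff.1 hs
  have hM : Mon m w := by
    refine ⟨?_, fun i => ?_⟩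
    · filter_upwards [hnb] with s hs
      exact h1 s hs
    · have h9 : DifferentiableOn ℂ (fun t => (w t).coeff i) (ball 0 ρ) := fun s hs =>
        (h2 i s (mem_ball_zero_iff.1 hs)).differentiableWithinAt
      exact h9.analyticAt (ball_mem_nhds _ hρ)
  obtain ⟨K, hK, L, hL, h3⟩ := fac_all h m w hM
  have hlen : L.length = m := by
    have h4 := h3.self_of_nhds
    have h5 := hM.1.self_of_nhds
    rw [zero_pow (by omega)] at h4
    rw [h4] at h5
    have h6 : ∀ L' : List (ℂ → ℂ),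
        ((L'.map fun f => X - C (f 0)).prod : ℂ[X]).natDegree = L'.length := by
      intro L'
      induction L' with
      | nil => simp
      | cons f L' ih =>
        simp only [List.map_cons, List.prod_cons, List.length_cons]
        rw [(monic_X_sub_C _).natDegree_mul', natDegree_X_sub_C, ih, add_comm]
        intro hcon
        rw [List.prod_eq_zero_iff, List.mem_map] at hcon
        obtain ⟨f, -, hf⟩ := hcon
        exact X_sub_C_ne_zero _ hf
    rw [← h5.2, h6]
  subst hlen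
  have h4 : ∀ᶠ a in 𝓝 (0 : ℂ), ∀ i : Fin L.length, AnalyticAt ℂ (L.get i) a := by
    rw [eventually_all]
    exact fun i => (hL _ (List.get_mem L i)).eventually_analyticAt
  obtain ⟨ε, hε, h5⟩ := Metric.eventually_nhds_iff.1 ((h3.and h4).and ((tpow hK).eventually hnb))
  refine ⟨K, hK, fun i => L.get i, ε, hε, fun i a ha => ?_, fun a ha => ?_⟩
  · exact ((h5 (by rwa [dist_zero_right])).1.2 i).differentiableAt
  · obtain ⟨⟨h6, -⟩, h7⟩ := h5 (y := a) (by rwa [dist_zero_right])
    refine ⟨h7, ?_⟩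
    rw [h6]
    exact (Fin.prod_univ_fun_getElem L fun f => (X - C (f a) : ℂ[X])).symm

end Pool.Agent.H227.TF207
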